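import Pool.Agent.Helper75.Reducts.Main
import Pool.Agent.Helper71.Reducts.RN
import Pool.Agent.Helper17.Reducts.Interp

/-!
# MP_a81937_lc, Q1, answered positively: every structure with a first-order interpretation over
the pure set `(ℕ; =)` has only finitely many first-order reducts up to interdefinability.
-/

namespace Pool.Agent.Results.MP_a81937_lc.FinitelyManyReducts

open FirstOrder Reducts

universe u v w u' v'

/-- `s` is first-order definable without parameters in `(ℕ; =)`, the set of natural numbers
viewed as a structure of the empty language. -/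
def DefinableInPureSet {α : Type} (s : Set (α → ℕ)) : Prop :=
  letI : Language.empty.Structure ℕ := Language.emptyStructure
  (∅ : Set ℕ).Definable Language.empty s

/-- The `L`-structure `B` has a first-order interpretation over `(ℕ; =)`: there are `d`, a definable
`D ⊆ ℕ ^ d` and a surjection `h : D → B` such that the preimage under `h` of the set defined by any
atomic formula of `L` is definable (`x₁ = x₂` is an atomic formula, so the kernel of `h` is
definable too). -/
def InterpretableInPureSet (L : FirstOrder.Language.{u, v}) (B : Type w) [L.Structure B] : Prop :=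
  ∃ (d : ℕ) (D : Set (Fin d → ℕ)) (h : D → B), DefinableInPureSet D ∧ Function.Surjective h ∧
    ∀ (k : ℕ) (φ : L.Formula (Fin k)), φ.IsAtomic →
      DefinableInPureSet {t : Fin k × Fin d → ℕ |
        ∃ ht : ∀ i : Fin k, (fun j => t (i, j)) ∈ D, φ.Realize (fun i => h ⟨_, ht i⟩)}

/-- Every relation of the `L'`-structure on `B` (the relations named by relation symbols and the
graphs of the functions named by function symbols) is definable without parameters in the
`L`-structure on `B`. -/
def DefinableIn (L : FirstOrder.Language.{u, v}) (B : Type w) (sL : L.Structure B)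
    (L' : FirstOrder.Language.{u', v'}) (sL' : L'.Structure B) : Prop :=
  (∀ (n : ℕ) (R : L'.Relations n),
    (∅ : Set B).Definable L {x : Fin n → B | Language.Structure.RelMap R x}) ∧
  (∀ (n : ℕ) (f : L'.Functions n),
    (∅ : Set B).Definable L {x : Fin (n + 1) → B |
      Language.Structure.funMap f (fun i : Fin n => x i.castSucc) = x (Fin.last n)})

/-- A first-order structure with domain `B`: a language and an interpretation of its symbols. -/
structure StructureOn (B : Type w) where
  lang : FirstOrder.Language.{u, v}
  str : lang.Structure B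

/-- `C` is a first-order reduct of the `L`-structure `B`: each relation of `C` is definable. -/
def IsReduct (L : FirstOrder.Language.{u, v}) (B : Type w) [sL : L.Structure B]
    (C : StructureOn.{u', v'} B) : Prop :=
  DefinableIn L B sL C.lang C.str

/-- Two structures with domain `B` are interdefinable: each relation of each one is definable in
the other. -/
def Interdefinable {B : Type w} (C : StructureOn.{u, v} B) (C' : StructureOn.{u', v'} B) : Prop :=
  DefinableIn C.lang B C.str C'.lang C'.str ∧ DefinableIn C'.lang B C'.str C.lang C.str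

/-! ### Automorphism groups as subgroups of the symmetric group -/

/-- the automorphism group of a structure, as a subgroup of the symmetric group of its domain. -/
def AutSub (L : FirstOrder.Language.{u, v}) (B : Type w) [L.Structure B] : Subgroup (Equiv.Perm B) where
  carrier := {g | (∀ (n : ℕ) (R : L.Relations n) (x : Fin n → B),
      Language.Structure.RelMap R (fun i => g (x i)) ↔ Language.Structure.RelMap R x) ∧
    ∀ (n : ℕ) (f : L.Functions n) (x : Fin n → B),
      Language.Structure.funMap f (fun i => g (x i)) = g (Language.Structure.funMap f x)}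
  one_mem' := ⟨fun _ _ _ => Iff.rfl, fun _ _ _ => rfl⟩
  mul_mem' := by
    rintro g h ⟨hg, hg2⟩ ⟨hh, hh2⟩
    refine ⟨fun n R x => ?_, fun n f x => ?_⟩
    · exact (hg n R (fun i => h (x i))).trans (hh n R x)
    · exact (hg2 n f (fun i => h (x i))).trans (congrArg g (hh2 n f x))
  inv_mem' := by
    rintro g ⟨hg, hg2⟩
    refine ⟨fun n R x => ?_, fun n f x => ?_⟩
    · have := hg n R (fun i => g⁻¹ (x i))
      simp only [pap_inv] at this
      exact this.symm
    · have := hg2 n f (fun i => g⁻¹ (x i))
      simp only [pap_inv] at this
      rw [this, pinv_ap]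

variable {B : Type w}

/-- an element of `AutSub` as an automorphism. -/
def toEquiv {L : FirstOrder.Language.{u, v}} [L.Structure B] {g : Equiv.Perm B} (hg : g ∈ AutSub L B) :
    B ≃[L] B where
  toEquiv := g
  map_fun' := fun f x => (hg.2 _ f x).symm
  map_rel' := fun R x => hg.1 _ R x

theorem mem_autSub {L : FirstOrder.Language.{u, v}} [L.Structure B] (f : B ≃[L] B) :
    (f.toEquiv : Equiv.Perm B) ∈ AutSub L B :=
  ⟨fun _ R x => f.map_rel' R x, fun _ g x => (f.map_fun' g x).symm⟩

theorem isClosed_autSub (L : FirstOrder.Language.{u, v}) [L.Structure B] : IsClosedSub (AutSub L B) := by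
  classical
  intro g hg
  refine ⟨fun n R x => ?_, fun n f x => ?_⟩
  · obtain ⟨k, hk, hk2⟩ := hg (Finset.univ.image x)
    have e : (fun i => g (x i)) = fun i => k (x i) := by
      funext i
      exact (hk2 _ (Finset.mem_image_of_mem _ (Finset.mem_univ i))).symm
    rw [e]
    exact hk.1 n R x
  · obtain ⟨k, hk, hk2⟩ := hg (insert (Language.Structure.funMap f x) (Finset.univ.image x))
    have e : (fun i => g (x i)) = fun i => k (x i) := by
      funext i
      exact (hk2 _ (Finset.mem_insert_of_mem (Finset.mem_image_of_mem _ (Finset.mem_univ i)))).symm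
    rw [e, ← hk2 _ (Finset.mem_insert_self _ _)]
    exact hk.2 n f x

/-- definable sets are invariant under automorphisms. -/
theorem definable_autSub {L : FirstOrder.Language.{u, v}} [L.Structure B] {α : Type*} {s : Set (α → B)}
    (hs : (∅ : Set B).Definable L s) {g : Equiv.Perm B} (hg : g ∈ AutSub L B) (x : α → B) :
    (fun i => g (x i)) ∈ s ↔ x ∈ s := by
  obtain ⟨φ, hφ⟩ := Set.empty_definable_iff.1 hs
  subst hφ
  exact Language.StrongHomClass.realize_formula (toEquiv hg) φ

theorem autSub_le_of_definableIn {L : FirstOrder.Language.{u, v}} {sL : L.Structure B}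
    {L' : FirstOrder.Language.{u', v'}} {sL' : L'.Structure B} (h : DefinableIn L B sL L' sL') :
    AutSub L B ≤ AutSub L' B := by
  intro g hg
  refine ⟨fun n R x => definable_autSub (h.1 n R) hg x, fun n f x => ?_⟩
  have h1 := definable_autSub (h.2 n f) hg
    (Fin.snoc (α := fun _ => B) x (Language.Structure.funMap f x))
  have h2 := h1.2 (by
    rw [Set.mem_ofPred_eq]
    simp)
  rw [Set.mem_ofPred_eq] at h2
  simpa using h2

section
variable [MulAction (Equiv.Perm ℕ) B]

/-- definable sets form a finite family. -/
theorem finite_definable (hfs : FinSupp B) (hof : OrbFin B) {L : FirstOrder.Language.{u, v}} [L.Structure B]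
    (hG : ContainsFx ∅ (AutSub L B)) (n : ℕ) :
    {s : Set (Fin n → B) | (∅ : Set B).Definable L s}.Finite := by
  classical
  obtain ⟨R, hR, hRrep⟩ := finite_orbits hfs hof ∅ (ι := Fin n)
  apply Set.Finite.of_finite_image (f := fun s => s ∩ R)
  · apply hR.finite_subsets.subset
    rintro _ ⟨s, _, rfl⟩
    exact Set.inter_subset_right
  · intro s hs s' hs' he
    have key : ∀ s s' : Set (Fin n → B), (∅ : Set B).Definable L s →
        (∅ : Set B).Definable L s' → s ∩ R = s' ∩ R → s ⊆ s' := by
      intro s s' hs hs' he x hx
      obtain ⟨g, hg, f, hf, rfl⟩ := hRrep x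
      have hgm := hG g hg
      have h1 : f ∈ s := (definable_autSub hs hgm f).1 hx
      have h2 : f ∈ s' ∩ R := by
        rw [← he]
        exact ⟨h1, hf⟩
      exact (definable_autSub hs' hgm f).2 h2.1
    exact Set.Subset.antisymm (key s s' hs hs' he) (key s' s hs' hs he.symm)

/-- relations invariant under all automorphisms are definable. -/
theorem definable_of_inv [Countable B] (hfs : FinSupp B) (hof : OrbFin B) {L : FirstOrder.Language.{u, v}}
    [L.Structure B] (hG : ContainsFx ∅ (AutSub L B)) {n : ℕ} (s : Set (Fin n → B))
    (hs : ∀ g ∈ AutSub L B, ∀ x, x ∈ s → (fun i => g (x i)) ∈ s) :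
    (∅ : Set B).Definable L s :=
  Pool.Agent.Helper71.RN.definable_of_invariant (finite_definable hfs hof hG) s
    (fun f x hx => hs _ (mem_autSub f) x hx)

end

/-- the relational language of all relations invariant under `K`. -/
def invLang (K : Subgroup (Equiv.Perm B)) : FirstOrder.Language.{0, w} where
  Functions := fun _ => Empty
  Relations := fun n => {s : Set (Fin n → B) // ∀ g ∈ K, ∀ x, x ∈ s → (fun i => g (x i)) ∈ s}

/-- the structure of all relations invariant under `K`. -/
def invStr (K : Subgroup (Equiv.Perm B)) : StructureOn.{0, w} B where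
  lang := invLang K
  str :=
    { funMap := fun f => Empty.elim f
      RelMap := fun s x => x ∈ s.1 }

theorem definable_rel {L : FirstOrder.Language.{u, v}} [L.Structure B] {n : ℕ} (R : L.Relations n) :
    (∅ : Set B).Definable L {x : Fin n → B | Language.Structure.RelMap R x} := by
  rw [Set.empty_definable_iff]
  refine ⟨Language.Relations.formula R (fun i => Language.var i), ?_⟩
  ext x
  simp [Language.Formula.realize_rel]

/-- **Q1, positive answer.** -/
theorem result {L : FirstOrder.Language.{u, v}} {B : Type w} [L.Structure B]
    (hB : InterpretableInPureSet L B) :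
    ∃ (n : ℕ) (R : Fin n → StructureOn.{0, w} B), (∀ i, IsReduct L B (R i)) ∧
      ∀ C : StructureOn.{u', v'} B, IsReduct L B C → ∃ i, Interdefinable C (R i) := by
  classical
  obtain ⟨d, D, h, hD, hsurj, hat⟩ := hB
  let _ : Language.empty.Structure ℕ := Language.emptyStructure
  obtain ⟨act, hfs, hof, haut⟩ := interp_action (L := L) hD h hsurj hat
  have : Countable B := hsurj.countable
  have hGL : ContainsFx ∅ (AutSub L B) := by
    intro g _
    obtain ⟨f, hf⟩ := haut g
    have h1 := mem_autSub f
    have h2 : (f.toEquiv : Equiv.Perm B) = MulAction.toPermHom (Equiv.Perm ℕ) B g := by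
      ext b
      exact hf b
    rwa [h2] at h1
  have hfinK : {K : Subgroup (Equiv.Perm B) | (IsClosedSub K ∧ ContainsFx ∅ K) ∧
      AutSub L B ≤ K}.Finite := (finite_closed hfs hof).subset (fun K hK => hK.1)
  have := hfinK.to_subtype
  obtain ⟨n, ⟨e⟩⟩ := Finite.exists_equiv_fin
    {K : Subgroup (Equiv.Perm B) | (IsClosedSub K ∧ ContainsFx ∅ K) ∧ AutSub L B ≤ K}
  refine ⟨n, fun i => invStr (e.symm i).1, fun i => ?_, fun C hC => ?_⟩
  · refine ⟨fun m s => ?_, fun m f => Empty.elim f⟩
    exact definable_of_inv hfs hof hGL _ (fun g hg x hx => s.2 g ((e.symm i).2.2 hg) x hx)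
  · let _ := C.str
    have hle : AutSub L B ≤ AutSub C.lang B := autSub_le_of_definableIn hC
    have hGC : ContainsFx ∅ (AutSub C.lang B) := fun g hg => hle (hGL g hg)
    refine ⟨e ⟨AutSub C.lang B, ⟨isClosed_autSub C.lang, hGC⟩, hle⟩, ?_⟩
    dsimp only
    rw [Equiv.symm_apply_apply]
    refine ⟨⟨fun m s => ?_, fun m f => Empty.elim f⟩, ⟨fun m R => ?_, fun m f => ?_⟩⟩
    · exact definable_of_inv hfs hof hGC _ (fun g hg x hx => s.2 g hg x hx)
    · let _ : (invLang (AutSub C.lang B)).Structure B := (invStr (AutSub C.lang B)).str
      exact definable_rel (L := invLang (AutSub C.lang B))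
        ⟨{x : Fin m → B | Language.Structure.RelMap R x},
          fun g hg x hx => (hg.1 m R x).2 hx⟩
    · let _ : (invLang (AutSub C.lang B)).Structure B := (invStr (AutSub C.lang B)).str
      exact definable_rel (L := invLang (AutSub C.lang B))
        ⟨{x : Fin (m + 1) → B | Language.Structure.funMap f (fun i : Fin m => x i.castSucc) =
          x (Fin.last m)}, fun g hg x hx => (hg.2 m f _).trans (congrArg g hx)⟩

end Pool.Agent.Results.MP_a81937_lc.FinitelyManyReducts
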